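import Pool.Agent.TH294.RG.Four2

/-!
# Four point functions of Laplace eigenfunctions at the scale of the wavelength (MP_6b977f_mp)

The plane is `ℂ`. `dx f z`, `dy f z` are the partial derivatives `fderiv ℝ f z 1`,
`fderiv ℝ f z I`, and `lap f = dx (dx f) + dy (dy f)`; `TF Ω φ` says that `φ : ℂ → ℝ` is smooth
with compact support contained in `Ω`.

The operator `D = λ^{-1/2} (∂x - i ∂y)` has, at a unit momentum of direction `α`, the symbol
`sym α = i exp(-iα)`. The hypothesis `hsc` says that `u n` has the semiclassical measure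
`m(z) ν_z(dα) dz` on the unit cosphere bundle over `Ω`; quantum ergodicity is the case `m = 1`,
`ν_z` uniform, for which `cov (ν_z) w = J_0(|w|)`. The hypothesis `hpar` says that `ν_z` has no
atoms modulo `π`.
-/

set_option autoImplicit false
open MeasureTheory Filter Topology Complex ProbabilityTheory
open scoped ContDiff ENNReal

namespace Pool.Agent.Results.MP_6b977f_mp.FourPointFunctions

open Pool.Agent.W745.RW

/-- the normalised derivative `λ^{-1/2} (∂x - i ∂y)` -/
noncomputable def D (lam : ℝ) (f : ℂ → ℂ) (z : ℂ) : ℂ :=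
  ((1 / √lam : ℝ) : ℂ) * (dx f z - I * dy f z)

/-- the symbol of `D` at a unit momentum of direction `α` -/
noncomputable def sym (α : ℝ) : ℂ := I * Complex.exp (-(α : ℂ) * I)

/-- the probability that two independent directions of law `ν` are parallel (equal or opposite) -/
noncomputable def parallel (ν : Measure ℝ) : ℝ :=
  (ν.prod ν).real {p | Real.sin (p.1 - p.2) = 0}

/-- the covariance function of the random wave with directions of law `ν`:
`cov ν w = ∫ cos (w · (cos α, sin α)) dν(α)` -/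
noncomputable def cov (ν : Measure ℝ) (w : ℂ) : ℝ :=
  ∫ α, Real.cos (w.re * Real.cos α + w.im * Real.sin α) ∂ν

/-- the four point function at displacements `w i` of the Gaussian wave with directions of
law `ν` -/
noncomputable def gauss (ν : Measure ℝ) (w : Fin 4 → ℂ) : ℝ :=
  cov ν (w 0 - w 1) * cov ν (w 2 - w 3) + cov ν (w 0 - w 2) * cov ν (w 1 - w 3) +
    cov ν (w 0 - w 3) * cov ν (w 1 - w 2)

/-- **Result.** Let `u n` be real solutions of `Δu + λ_n u = 0` on the open set `Ω ⊆ ℝ²`,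
`λ_n → ∞`, with semiclassical measure `m(z) ν_z dz`, `m` locally square integrable and `ν_z`
without atoms modulo `π`. Let `K ⊆ Ω` be compact, `φ ≥ 0` a test function supported in its
interior, `w 0, …, w 3` vectors and `ε > 0`. Then, for all large `n`, the local four point function
of the rescaled eigenfunction differs from its Gaussian value by at most the excess
`∫ φ u⁴ - 3 ∫ φ m²` of the fourth moment, up to an error `ε (1 + ∫_K u⁴)`. -/
theorem result (Ω : Set ℂ) (lam : ℕ → ℝ) (hpos : ∀ n, 0 < lam n)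
    (hlam : Tendsto lam atTop atTop) (u : ℕ → ℂ → ℝ) (hu : ∀ n, ContDiffOn ℝ ∞ (u n) Ω)
    (heq : ∀ n, ∀ z ∈ Ω, lap (u n) z + lam n * u n z = 0)
    (m : ℂ → ℝ) (hm : ∀ K : Set ℂ, IsCompact K → K ⊆ Ω → MemLp m 2 (volume.restrict K))
    (ν : Kernel ℂ ℝ) [IsMarkovKernel ν]
    (hsc : ∀ φ, TF Ω φ → ∀ k : ℕ, Tendsto (fun n => ∫ z, (φ z : ℂ) * ((u n z : ℂ) *
      (D (lam n))^[k] (fun w => (u n w : ℂ)) z)) atTop
      (𝓝 (∫ z, (φ z : ℂ) * ((m z : ℂ) * ∫ α, sym α ^ k ∂(ν z)))))
    (hpar : ∀ᵐ z ∂(volume.restrict Ω), parallel (ν z) = 0)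
    (K : Set ℂ) (hK : IsCompact K) (hKΩ : K ⊆ Ω) (φ : ℂ → ℝ) (hφ : TF (interior K) φ)
    (hφ0 : ∀ z, 0 ≤ φ z) (w : Fin 4 → ℂ) (ε : ℝ) (hε : 0 < ε) :
    ∀ᶠ n in atTop, |(∫ z, φ z * ∏ i, u n (z + ((1 / √(lam n) : ℝ) : ℂ) * w i)) -
        ∫ z, φ z * (m z ^ 2 * gauss (ν z) w)| ≤
      (∫ z, φ z * u n z ^ 4) - 3 * (∫ z, φ z * m z ^ 2) + ε * (1 + ∫ z in K, u n z ^ 4) := by
  have hD : ∀ n, D (lam n) = Pool.Agent.TH294.RS.DP (fun _ => 1) (1 / √(lam n)) := by
    intro n
    funext f z
    simp only [D, Pool.Agent.TH294.RS.DP, Pool.Agent.TH294.RS.dd, ofReal_one, one_mul]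
  have hs : ∀ n, 0 < √(lam n) := fun n => Real.sqrt_pos.2 (hpos n)
  have hl : Tendsto (fun n => 1 / √(lam n)) atTop (𝓝 0) := by
    have : Tendsto (fun n => √(lam n)) atTop atTop := Real.tendsto_sqrt_atTop.comp hlam
    exact (this.inv_tendsto_atTop).congr (fun n => by simp [one_div])
  have H : Pool.Agent.TH294.RG.RawG Ω (fun _ => 1) (fun n => 1 / √(lam n)) u
      (Pool.Agent.TH294.RG.MM m Pool.Agent.TH294.RG.ea ν) := by
    refine ⟨fun n => div_pos one_pos (hs n), hl, contDiffOn_const, fun _ _ => one_pos, hu,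
      fun n z hz => ?_, fun φ hφ k => ?_⟩
    · have h1 := heq n z hz
      have h2 : (1 / √(lam n)) ^ 2 = 1 / lam n := by
        rw [div_pow, Real.sq_sqrt (hpos n).le, one_pow]
      have h3 := (hpos n).ne'
      have h4 : lap (u n) z = -(lam n * u n z) := by linarith
      rw [h2, h4]
      field_simp
      ring
    · refine (hsc φ hφ k).congr fun n => ?_
      rw [hD n]
  have hp : ∀ᵐ z ∂(volume.restrict Ω), Pool.Agent.TH294.RG.par Pool.Agent.TH294.RG.ea (ν z) = 0 := by
    filter_upwards [hpar] with z hz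
    simp only [Pool.Agent.TH294.RG.par, Pool.Agent.TH294.RG.ea_par]
    exact hz
  have key := Pool.Agent.TH294.RG.four_rel hm hp H hK hKΩ hφ hφ0 w hε
  have hea : ∀ (w : ℂ) (α : ℝ), (w * Pool.Agent.TH294.RG.ea α).im =
      w.re * Real.cos α + w.im * Real.sin α := by
    intro w α
    have e1 : Complex.exp (-(α : ℂ) * I) = (Real.cos α : ℂ) - (Real.sin α : ℂ) * I := by
      rw [show -(α : ℂ) * I = ((-α : ℝ) : ℂ) * I by push_cast; ring, Complex.exp_mul_I]
      push_cast
      rw [Complex.cos_neg, Complex.sin_neg]; ring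
    unfold Pool.Agent.TH294.RG.ea
    rw [e1]
    simp only [mul_im, mul_re, I_re, I_im, sub_re, sub_im, ofReal_re, ofReal_im]
    ring
  have hcov : ∀ (μ : Measure ℝ) (w : ℂ), Pool.Agent.TH294.RG.cvf w μ = cov μ w := by
    intro μ w
    simp only [Pool.Agent.TH294.RG.cvf, cov, hea]
  have hG : ∀ z, Pool.Agent.TH294.RG.G4 m ν w z = m z ^ 2 * gauss (ν z) w := by
    intro z
    simp only [Pool.Agent.TH294.RG.G4, hcov, gauss]
  refine key.mono fun n hn => ?_
  simp only [hG] at hn
  simp only [Fin.prod_univ_four]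
  exact hn

end Pool.Agent.Results.MP_6b977f_mp.FourPointFunctions
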