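import Pool.Agent.TH294.RG.Pl11

/-!
# The local mass of eigenfunctions at the scale of many wavelengths (MP_6b977f_mp)

The plane is `ℂ`; `dx f z`, `dy f z` are the partial derivatives `fderiv ℝ f z 1`,
`fderiv ℝ f z I`, `lap f = dx (dx f) + dy (dy f)`; `TF U φ` says that `φ : ℂ → ℝ` is smooth with
compact support contained in `U`.

The operator `D = λ^{-1/2} (∂x - i ∂y)` has, at a unit momentum of direction `α`, the symbol
`sym α = i exp(-iα)`. The hypothesis `hsc` says that `u n` has the semiclassical measure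
`m(z) ν_z(dα) dz` on the unit cosphere bundle over `Ω`: for every test function `φ` and every
`k ≥ 0`, `∫ φ u (D^k u) dz → ∫ φ m (∫ (sym α)^k dν_z(α)) dz`. Here `m` is the density of the
limit of `u² dz` and `ν_z`, a probability measure, is the law of the direction of the momentum
at `z`. Quantum ergodicity is the case `m = 1`, `ν_z` uniform.
-/

set_option autoImplicit false
open MeasureTheory Filter Topology Complex ProbabilityTheory
open scoped ContDiff

namespace Pool.Agent.Results.MP_6b977f_mp.PlanckScaleMass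

open Pool.Agent.W745.RW

/-- the normalised derivative `λ^{-1/2} (∂x - i ∂y)` -/
noncomputable def D (lam : ℝ) (f : ℂ → ℂ) (z : ℂ) : ℂ :=
  ((1 / √lam : ℝ) : ℂ) * (dx f z - I * dy f z)

/-- the symbol of `D` at a unit momentum of direction `α` -/
noncomputable def sym (α : ℝ) : ℂ := I * Complex.exp (-(α : ℂ) * I)

/-- the probability that two independent directions of law `ν` are parallel (equal or opposite) -/
noncomputable def parallel (ν : Measure ℝ) : ℝ :=
  (ν.prod ν).real {p | Real.sin (p.1 - p.2) = 0}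

/-- the mean of `f` over the disc with centre `z` and radius `r` -/
noncomputable def mean (r : ℝ) (f : ℂ → ℝ) (z : ℂ) : ℝ :=
  1 / (Real.pi * r ^ 2) * ∫ w in Metric.ball z r, f w

/-- **Result.** Let `u n` be real solutions of `Δu + λ_n u = 0` on the open set `Ω ⊆ ℝ²`,
`λ_n → ∞`, with semiclassical measure `m(z) ν_z dz`, where `m` is locally square integrable. Let
`K ⊆ Ω` be compact and `φ` a test function supported in its interior. For the local mass
`mean (R / √λ_n) (u n)²` (the mean of `u²` over a disc of `R` wavelengths, up to a factor `2π`):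
its integral against `φ` tends to `∫ φ m` for every fixed `R`, and for large `R` the integral of
its square against `φ` equals `(2/3) ∫ φ u⁴ - ∫ φ m² (1 - parallel ν_z)`, up to an error which is
at most `ε (1 + ∫_K u⁴)` for `R ≥ R0(ε)` and all large `n`. -/
theorem result (Ω : Set ℂ) (hΩ : IsOpen Ω) (lam : ℕ → ℝ) (hpos : ∀ n, 0 < lam n)
    (hlam : Tendsto lam atTop atTop) (u : ℕ → ℂ → ℝ) (hu : ∀ n, ContDiffOn ℝ ∞ (u n) Ω)
    (heq : ∀ n, ∀ z ∈ Ω, lap (u n) z + lam n * u n z = 0)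
    (m : ℂ → ℝ) (hm : ∀ K : Set ℂ, IsCompact K → K ⊆ Ω → MemLp m 2 (volume.restrict K))
    (ν : Kernel ℂ ℝ) [IsMarkovKernel ν]
    (hsc : ∀ φ, TF Ω φ → ∀ k : ℕ, Tendsto (fun n => ∫ z, (φ z : ℂ) * ((u n z : ℂ) *
      (D (lam n))^[k] (fun w => (u n w : ℂ)) z)) atTop
      (𝓝 (∫ z, (φ z : ℂ) * ((m z : ℂ) * ∫ α, sym α ^ k ∂(ν z)))))
    (K : Set ℂ) (hK : IsCompact K) (hKΩ : K ⊆ Ω) (φ : ℂ → ℝ) (hφ : TF (interior K) φ) :
    (∀ R : ℝ, 0 < R → Tendsto (fun n => ∫ z, φ z * mean (R / √(lam n)) (fun w => u n w ^ 2) z)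
      atTop (𝓝 (∫ z, φ z * m z))) ∧
    ∀ ε : ℝ, 0 < ε → ∃ R0 : ℝ, 0 < R0 ∧ ∀ R : ℝ, R0 ≤ R → ∀ᶠ n in atTop,
      |(∫ z, φ z * mean (R / √(lam n)) (fun w => u n w ^ 2) z ^ 2) -
        (2 / 3 * (∫ z, φ z * u n z ^ 4) - ∫ z, φ z * (m z ^ 2 * (1 - parallel (ν z))))| ≤
        ε * (1 + ∫ z in K, u n z ^ 4) := by
  have hD : ∀ n, D (lam n) = Pool.Agent.TH294.RS.DP (fun _ => 1) (1 / √(lam n)) := by
    intro n
    funext f z
    simp only [D, Pool.Agent.TH294.RS.DP, Pool.Agent.TH294.RS.dd, ofReal_one, one_mul]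
  have hs : ∀ n, 0 < √(lam n) := fun n => Real.sqrt_pos.2 (hpos n)
  have hl : Tendsto (fun n => 1 / √(lam n)) atTop (𝓝 0) := by
    have : Tendsto (fun n => √(lam n)) atTop atTop := Real.tendsto_sqrt_atTop.comp hlam
    exact (this.inv_tendsto_atTop).congr (fun n => by simp [one_div])
  have H : Pool.Agent.TH294.RG.RawG Ω (fun _ => 1) (fun n => 1 / √(lam n)) u
      (Pool.Agent.TH294.RG.MM m Pool.Agent.TH294.RG.ea ν) := by
    refine ⟨fun n => div_pos one_pos (hs n), hl, contDiffOn_const, fun _ _ => one_pos, hu,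
      fun n z hz => ?_, fun φ hφ k => ?_⟩
    · have h1 := heq n z hz
      have h2 : (1 / √(lam n)) ^ 2 = 1 / lam n := by
        rw [div_pow, Real.sq_sqrt (hpos n).le, one_pow]
      have h3 := (hpos n).ne'
      have h4 : lap (u n) z = -(lam n * u n z) := by linarith
      rw [h2, h4]
      field_simp
      ring
    · refine (hsc φ hφ k).congr fun n => ?_
      rw [hD n]
  have hmean : ∀ R : ℝ, 0 < R → ∀ n z, mean (R / √(lam n)) (fun w => u n w ^ 2) z =
      ∫ w, u n (z + (R * (1 / √(lam n))) • w) ^ 2 ∂Pool.Agent.TH294.RG.dm := by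
    intro R hR n z
    have h1 := Pool.Agent.TH294.RG.mean_dm (fun w => u n w ^ 2) z (div_pos hR (hs n))
    rw [mean, h1, div_eq_mul_one_div]
  have hq : ∀ φ, TF Ω φ → Tendsto (fun n => ∫ z, φ z * u n z ^ 2) atTop
      (𝓝 (∫ z, φ z * m z)) := by
    intro φ hφ
    have h1 := (Complex.continuous_re.tendsto _).comp (hsc φ hφ 0)
    have e1 : ∫ z, (φ z : ℂ) * ((m z : ℂ) * ∫ α, sym α ^ 0 ∂(ν z)) =
        ((∫ z, φ z * m z : ℝ) : ℂ) := by
      rw [← integral_complex_ofReal]
      congr 1; funext z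
      simp
    rw [e1, ofReal_re] at h1
    refine h1.congr fun n => ?_
    have e2 : ∫ z, (φ z : ℂ) * ((u n z : ℂ) * (D (lam n))^[0] (fun w => (u n w : ℂ)) z) =
        ((∫ z, φ z * u n z ^ 2 : ℝ) : ℂ) := by
      rw [← integral_complex_ofReal]
      congr 1; funext z
      rw [Function.iterate_zero, id]
      push_cast; ring
    simp only [Function.comp_def]
    rw [e2, ofReal_re]
  have hφΩ : TF Ω φ := ⟨hφ.1, hφ.2.1, hφ.2.2.trans (interior_subset.trans hKΩ)⟩
  refine ⟨fun R hR => ?_, fun ε hε => ?_⟩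
  · simp only [hmean R hR]
    exact Pool.Agent.TH294.RG.first_moment hΩ (fun n => div_pos one_pos (hs n)) hl hu hq hφΩ hR
  · obtain ⟨R0, hR0, key⟩ := Pool.Agent.TH294.RG.planck2 Pool.Agent.TH294.RG.ea_meas
      Pool.Agent.TH294.RG.ea_norm hm H hK hKΩ hφ hε
    refine ⟨R0, hR0, fun R hR => ?_⟩
    refine (key R hR).mono fun n hn => ?_
    simp only [hmean R (lt_of_lt_of_le hR0 hR)]
    simp only [Pool.Agent.TH294.RG.par, Pool.Agent.TH294.RG.ea_par] at hn
    exact hn

end Pool.Agent.Results.MP_6b977f_mp.PlanckScaleMass
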